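import Pool.Agent.H39Z.SSS.Spec

/-! Pieces T, U, V, W: logarithmic integrals and their smoothed forms. -/

set_option autoImplicit false

namespace Pool.Agent.H591Z.SSSlog

open MeasureTheory Filter Topology Pool.Agent.H39Z.SSS

lemma log_le_S (δ t : ℝ) (ht : t ≠ 0) : Real.log |t| ≤ S δ t := by
  have h1 : Real.log |t| = Real.log (t ^ 2) / 2 := by
    rw [Real.log_pow, Real.log_abs]; push_cast; ring
  rw [h1, S]
  have : Real.log (t ^ 2) ≤ Real.log (t ^ 2 + δ ^ 2) :=
    Real.log_le_log (by positivity) (by nlinarith [sq_nonneg δ])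
  linarith

lemma S_mono (δ δ' t : ℝ) (h : 0 < δ) (h' : δ ≤ δ') : S δ t ≤ S δ' t := by
  unfold S
  have : Real.log (t ^ 2 + δ ^ 2) ≤ Real.log (t ^ 2 + δ' ^ 2) :=
    Real.log_le_log (by positivity) (by nlinarith)
  linarith

lemma S_le (δ t B : ℝ) (h : 0 < δ) (ht : |t| ≤ B) : S δ t ≤ S δ B := by
  unfold S
  have h2 : t ^ 2 ≤ B ^ 2 := by
    rw [← sq_abs t]
    exact pow_le_pow_left₀ (abs_nonneg t) ht 2
  have : Real.log (t ^ 2 + δ ^ 2) ≤ Real.log (B ^ 2 + δ ^ 2) :=
    Real.log_le_log (by positivity) (by linarith)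
  linarith

lemma le_S (δ t : ℝ) (h : 0 < δ) : S δ 0 ≤ S δ t := S_le δ 0 |t| h (by simp) |>.trans (by
  unfold S
  rw [sq_abs])

lemma S_one_nonneg (B : ℝ) : 0 ≤ S 1 B := by
  unfold S
  have : 0 ≤ Real.log (B ^ 2 + 1 ^ 2) := Real.log_nonneg (by nlinarith [sq_nonneg B])
  exact div_nonneg this zero_le_two

lemma S_meas {X : Type} [MeasurableSpace X] {f : X → ℝ} (hf : Measurable f) (δ : ℝ) :
    Measurable fun x => S δ (f x) := by
  unfold S
  fun_prop

lemma S_int {X : Type} [MeasurableSpace X] (μ : Measure X) [IsProbabilityMeasure μ] {f : X → ℝ}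
    {B : ℝ} (hf : Measurable f) (hB : ∀ᵐ x ∂μ, |f x| ≤ B) (δ : ℝ) (h : 0 < δ) :
    Integrable (fun x => S δ (f x)) μ := by
  refine Integrable.mono' (integrable_const (|S δ 0| + |S δ B|))
    (S_meas hf δ).aestronglyMeasurable ?_
  filter_upwards [hB] with x hx
  rw [Real.norm_eq_abs, abs_le]
  have h1 := le_S δ (f x) h
  have h2 := S_le δ (f x) B h hx
  constructor
  · linarith [neg_abs_le (S δ 0), abs_nonneg (S δ B)]
  · linarith [le_abs_self (S δ B), abs_nonneg (S δ 0)]

lemma tend_inv : Tendsto (fun n : ℕ => 1 / ((n : ℝ) + 1)) atTop (𝓝 0) :=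
  tendsto_one_div_add_atTop_nhds_zero_nat

lemma S_tend (t : ℝ) (ht : t ≠ 0) :
    Tendsto (fun n : ℕ => S (1 / ((n : ℝ) + 1)) t) atTop (𝓝 (Real.log |t|)) := by
  have h1 : Real.log |t| = Real.log (t ^ 2 + 0 ^ 2) / 2 := by
    rw [zero_pow two_ne_zero, add_zero, Real.log_pow, Real.log_abs]; push_cast; ring
  rw [h1]
  unfold S
  refine Tendsto.div_const (Tendsto.log ?_ (by positivity)) 2
  exact tendsto_const_nhds.add (tend_inv.pow 2)

lemma S_tend_zero : Tendsto (fun n : ℕ => S (1 / ((n : ℝ) + 1)) 0) atTop atBot := by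
  have h : ∀ n : ℕ, S (1 / ((n : ℝ) + 1)) 0 = -Real.log ((n : ℝ) + 1) := by
    intro n
    unfold S
    rw [zero_pow two_ne_zero, zero_add, Real.log_pow, one_div, Real.log_inv]
    push_cast
    ring
  simp only [h]
  refine tendsto_neg_atTop_atBot.comp (Real.tendsto_log_atTop.comp ?_)
  exact tendsto_atTop_add_const_right _ _ tendsto_natCast_atTop_atTop

lemma inv_pos' (n : ℕ) : 0 < 1 / ((n : ℝ) + 1) := by positivity

lemma inv_le' (n : ℕ) : 1 / ((n : ℝ) + 1) ≤ 1 := by
  rw [div_le_one (by positivity)]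
  linarith [Nat.cast_nonneg (α := ℝ) n]

theorem hW : S_W := by
  intro X _ μ _ f B hf hB h0 hi
  refine ⟨fun δ hδ => ⟨S_int μ hf hB δ hδ, integral_mono_ae hi (S_int μ hf hB δ hδ) ?_⟩, ?_⟩
  · filter_upwards [h0] with x hx
    exact log_le_S δ _ hx
  · intro ε hε
    have ht : Tendsto (fun n : ℕ => ∫ x, S (1 / ((n : ℝ) + 1)) (f x) ∂μ) atTop
        (𝓝 (∫ x, Real.log |f x| ∂μ)) := by
      refine tendsto_integral_of_dominated_convergence (fun x => |Real.log (|f x|)| + S 1 B)
        (fun n => (S_meas hf _).aestronglyMeasurable) (hi.abs.add (integrable_const _)) ?_ ?_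
      · intro n
        filter_upwards [hB, h0] with x hx hx0
        rw [Real.norm_eq_abs, abs_le]
        have h1 := log_le_S (1 / ((n : ℝ) + 1)) _ hx0
        have h2 := S_le _ (f x) B (inv_pos' n) hx
        have h3 := S_mono _ 1 B (inv_pos' n) (inv_le' n)
        have h4 := S_one_nonneg B
        constructor
        · linarith [neg_abs_le (Real.log |f x|)]
        · linarith [abs_nonneg (Real.log |f x|)]
      · filter_upwards [h0] with x hx
        exact S_tend _ hx
    obtain ⟨n, hn⟩ := (ht.eventually (gt_mem_nhds (lt_add_of_pos_right _ hε))).exists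
    refine ⟨1 / ((n : ℝ) + 1), inv_pos' n, fun δ hδ hδ' => le_trans ?_ hn.le⟩
    exact integral_mono (S_int μ hf hB δ hδ) (S_int μ hf hB _ (inv_pos' n))
      fun x => S_mono _ _ _ hδ hδ'

theorem hU : S_U := by
  intro X _ μ f _ h0 hi
  have e1 : ∫⁻ x, (elog (f x)).toENNReal ∂μ = ∫⁻ x, ENNReal.ofReal (Real.log |f x|) ∂μ := by
    refine lintegral_congr_ae ?_
    filter_upwards [h0] with x hx
    rw [elog, if_neg hx, EReal.real_coe_toENNReal]
  have e2 : ∫⁻ x, (-elog (f x)).toENNReal ∂μ = ∫⁻ x, ENNReal.ofReal (-Real.log |f x|) ∂μ := by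
    refine lintegral_congr_ae ?_
    filter_upwards [h0] with x hx
    rw [elog, if_neg hx, ← EReal.coe_neg, EReal.real_coe_toENNReal]
  have f1 : ∫⁻ x, ENNReal.ofReal (Real.log |f x|) ∂μ ≠ ⊤ := hi.lintegral_lt_top.ne
  have f2 : ∫⁻ x, ENNReal.ofReal (-Real.log |f x|) ∂μ ≠ ⊤ := hi.neg.lintegral_lt_top.ne
  rw [eint, e1, e2, integral_eq_lintegral_pos_part_sub_lintegral_neg_part hi, EReal.coe_sub,
    EReal.coe_ennreal_toReal f1, EReal.coe_ennreal_toReal f2]

lemma int_of_neg {X : Type} [MeasurableSpace X] (μ : Measure X) [IsProbabilityMeasure μ]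
    {f : X → ℝ} {B : ℝ} (hf : Measurable f) (hB : ∀ᵐ x ∂μ, |f x| ≤ B) (h0 : ∀ᵐ x ∂μ, f x ≠ 0)
    (a : ℝ) (h : ∫⁻ x, ENNReal.ofReal (a - Real.log |f x|) ∂μ ≠ ⊤) :
    Integrable (fun x => Real.log |f x|) μ := by
  have hm : Measurable fun x => Real.log |f x| := by fun_prop
  have hm2 : Measurable fun x => max (a - Real.log |f x|) 0 := by fun_prop
  have hi : Integrable (fun x => max (a - Real.log |f x|) 0) μ := by
    rw [← lintegral_ofReal_ne_top_iff_integrable hm2.aestronglyMeasurable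
      (Eventually.of_forall fun x => le_max_right _ _)]
    simpa only [ENNReal.ofReal_max, ENNReal.ofReal_zero, zero_le, sup_of_le_left] using h
  refine Integrable.mono' (hi.add (integrable_const (|a| + S 1 B))) hm.aestronglyMeasurable ?_
  filter_upwards [hB, h0] with x hx hx0
  rw [Real.norm_eq_abs, abs_le]
  have h1 := log_le_S 1 _ hx0
  have h2 := S_le 1 (f x) B one_pos hx
  have h4 := S_one_nonneg B
  have h5 := le_max_left (a - Real.log |f x|) 0
  have h6 := le_max_right (a - Real.log |f x|) 0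
  simp only [Pi.add_apply]
  constructor
  · linarith [neg_abs_le a]
  · linarith [abs_nonneg a]

theorem hV : S_V := by
  intro X _ μ _ f B hf hB h
  have hn : ∫⁻ x, (-elog (f x)).toENNReal ∂μ ≠ ⊤ := by
    intro ht
    apply h
    rw [eint, ht, EReal.coe_ennreal_top, EReal.sub_top]
  have hm : Measurable fun x => (-elog (f x)).toENNReal := by
    have e : (fun x => (-elog (f x)).toENNReal)
        = fun x => if f x = 0 then ⊤ else ENNReal.ofReal (-Real.log |f x|) := by
      funext x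
      unfold elog
      split_ifs with hx
      · simp
      · rw [← EReal.coe_neg, EReal.real_coe_toENNReal]
    rw [e]
    exact Measurable.ite (hf (measurableSet_singleton 0)) measurable_const (by fun_prop)
  have h0 : ∀ᵐ x ∂μ, f x ≠ 0 := by
    filter_upwards [ae_lt_top hm hn] with x hx hx0
    simp [elog, hx0] at hx
  refine ⟨h0, int_of_neg μ hf hB h0 0 ?_⟩
  have e2 : ∫⁻ x, (-elog (f x)).toENNReal ∂μ = ∫⁻ x, ENNReal.ofReal (0 - Real.log |f x|) ∂μ := by
    refine lintegral_congr_ae ?_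
    filter_upwards [h0] with x hx
    rw [elog, if_neg hx, ← EReal.coe_neg, EReal.real_coe_toENNReal, zero_sub]
  rwa [← e2]

theorem hT : S_T := by
  intro X _ μ _ f B c hf hB hc
  let g : X → ENNReal := fun x => if f x = 0 then ⊤ else ENNReal.ofReal (S 1 B - Real.log |f x|)
  have hg : Measurable g :=
    Measurable.ite (hf (measurableSet_singleton 0)) measurable_const (by fun_prop)
  have hl : ∀ x, liminf (fun n : ℕ => ENNReal.ofReal (S 1 B - S (1 / ((n : ℝ) + 1)) (f x))) atTop
      = g x := by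
    intro x
    apply Tendsto.liminf_eq
    by_cases hx : f x = 0
    · simp only [g, hx, if_true]
      refine ENNReal.tendsto_ofReal_atTop.comp ?_
      exact tendsto_atTop_add_const_left _ _ (tendsto_neg_atBot_atTop.comp S_tend_zero)
    · simp only [g, hx, if_false]
      exact ENNReal.tendsto_ofReal (tendsto_const_nhds.sub (S_tend _ hx))
  have hF := lintegral_liminf_le (μ := μ) (u := atTop)
    (f := fun (n : ℕ) x => ENNReal.ofReal (S 1 B - S (1 / ((n : ℝ) + 1)) (f x)))
    (fun n => ENNReal.measurable_ofReal.comp (measurable_const.sub (S_meas hf _)))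
  simp only [hl] at hF
  have hb : ∀ n : ℕ, ∫⁻ x, ENNReal.ofReal (S 1 B - S (1 / ((n : ℝ) + 1)) (f x)) ∂μ
      ≤ ENNReal.ofReal (S 1 B - c) := by
    intro n
    have hi := S_int μ hf hB _ (inv_pos' n)
    have hi2 : Integrable (fun x => S 1 B - S (1 / ((n : ℝ) + 1)) (f x)) μ :=
      (integrable_const _).sub hi
    rw [← ofReal_integral_eq_lintegral_ofReal hi2]
    · apply ENNReal.ofReal_le_ofReal
      rw [integral_sub (integrable_const _) hi]
      have := hc _ (inv_pos' n) (inv_le' n)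
      simp only [integral_const, probReal_univ, smul_eq_mul, one_mul]
      linarith
    · filter_upwards [hB] with x hx
      have h2 := S_le _ (f x) B (inv_pos' n) hx
      have h3 := S_mono _ 1 B (inv_pos' n) (inv_le' n)
      simp only [Pi.zero_apply]
      linarith
  have hfin : ∫⁻ x, g x ∂μ ≠ ⊤ :=
    ne_top_of_le_ne_top ENNReal.ofReal_ne_top
      (hF.trans (liminf_le_of_frequently_le' (Frequently.of_forall hb)))
  have h0 : ∀ᵐ x ∂μ, f x ≠ 0 := by
    filter_upwards [ae_lt_top hg hfin] with x hx hx0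
    simp [g, hx0] at hx
  have hi : Integrable (fun x => Real.log |f x|) μ := by
    refine int_of_neg μ hf hB h0 (S 1 B) ?_
    have e : ∫⁻ x, g x ∂μ = ∫⁻ x, ENNReal.ofReal (S 1 B - Real.log |f x|) ∂μ := by
      refine lintegral_congr_ae ?_
      filter_upwards [h0] with x hx
      simp only [g, hx, if_false]
    rwa [← e]
  refine ⟨h0, hi, le_of_forall_pos_le_add fun ε hε => ?_⟩
  obtain ⟨δ₀, hδ₀, h⟩ := (hW X μ f B hf hB h0 hi).2 ε hε
  exact (hc (min δ₀ 1) (lt_min hδ₀ one_pos) (min_le_right _ _)).trans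
    (h _ (lt_min hδ₀ one_pos) (min_le_left _ _))

end Pool.Agent.H591Z.SSSlog
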