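import Mathlib

/-! Largeness given by Haar measure on a compact monothetic group. -/

set_option autoImplicit false

namespace Pool.Agent.H591Z.Haar

open MeasureTheory Topology Filter Set
open scoped Pointwise

lemma integral_count {K : Type} [MeasurableSpace K] (μ : Measure K) [IsFiniteMeasure μ]
    (S : ℕ → Set K) (hS : ∀ n, MeasurableSet (S n)) (L : ℕ) :
    Integrable (fun z => ∑ n ∈ Finset.range L, (S n).indicator (fun _ => (1 : ℝ)) z) μ ∧
    ∫ z, ∑ n ∈ Finset.range L, (S n).indicator (fun _ => (1 : ℝ)) z ∂μ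
      = ∑ n ∈ Finset.range L, μ.real (S n) := by
  have hi : ∀ n ∈ Finset.range L, Integrable ((S n).indicator (fun _ => (1 : ℝ))) μ :=
    fun n _ => (integrable_const (1 : ℝ)).indicator (hS n)
  refine ⟨integrable_finsetSum _ hi, ?_⟩
  rw [integral_finsetSum _ hi]
  refine Finset.sum_congr rfl fun n _ => ?_
  rw [integral_indicator_const _ (hS n)]
  simp

variable {K : Type} [AddCommGroup K] [TopologicalSpace K] [IsTopologicalAddGroup K]
  [CompactSpace K] [T2Space K]

lemma cover (φ : ℕ →+ K) (hφ : DenseRange φ) (B : Set K) (hB : B ∈ 𝓝 (0 : K)) :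
    ∃ M : ℕ, ∀ κ : K, ∃ h ≤ M, κ - φ h ∈ B := by
  obtain ⟨O, hOB, hO, h0⟩ := mem_nhds_iff.mp hB
  have hc : (univ : Set K) ⊆ ⋃ h : ℕ, {κ | κ - φ h ∈ O} := by
    intro κ _
    have ho : IsOpen {x : K | κ - x ∈ O} := hO.preimage (by fun_prop)
    obtain ⟨h, hh⟩ := hφ.exists_mem_open ho ⟨κ, by simpa using h0⟩
    exact mem_iUnion.mpr ⟨h, hh⟩
  obtain ⟨t, ht⟩ := isCompact_univ.elim_finite_subcover (fun h : ℕ => {κ : K | κ - φ h ∈ O})
    (fun h => hO.preimage (by fun_prop)) hc
  refine ⟨t.sup id, fun κ => ?_⟩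
  obtain ⟨h, hh, hκ⟩ := mem_iUnion₂.mp (ht (mem_univ κ))
  exact ⟨h, Finset.le_sup (f := id) hh, hOB hκ⟩

lemma shift_le (f : ℕ → ℝ) (h0 : ∀ n, 0 ≤ f n) (h1 : ∀ n, f n ≤ 1) (h L : ℕ) :
    ∑ n ∈ Finset.range L, f n ≤ ∑ n ∈ Finset.range L, f (h + n) + h := by
  have e1 : ∑ n ∈ Finset.range L, f n ≤ ∑ n ∈ Finset.range (h + L), f n :=
    Finset.sum_le_sum_of_subset_of_nonneg (Finset.range_mono (by omega)) fun n _ _ => h0 n
  rw [Finset.sum_range_add] at e1
  have e2 : ∑ n ∈ Finset.range h, f n ≤ ∑ n ∈ Finset.range h, (1 : ℝ) :=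
    Finset.sum_le_sum fun n _ => h1 n
  simp only [Finset.sum_const, Finset.card_range, nsmul_eq_mul, mul_one] at e2
  linarith

lemma key [MeasurableSpace K] [BorelSpace K] (μ : Measure K) [IsProbabilityMeasure μ]
    [μ.IsAddLeftInvariant] [μ.OuterRegular] (φ : ℕ →+ K) (hφ : DenseRange φ)
    (E : Set K) (hE : IsClosed E) (η : ℝ) (hη : 0 < η) :
    ∃ L : ℕ, 0 < L ∧ ∀ z : K,
      ∑ n ∈ Finset.range L, E.indicator (fun _ => (1 : ℝ)) (z + φ n) ≤ (μ.real E + η) * L := by
  obtain ⟨O, hEO, hO, hμ⟩ := E.exists_isOpen_lt_add (μ := μ) (measure_ne_top μ E)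
    (ε := ENNReal.ofReal (η / 2)) (by simpa using hη)
  have hμ' : μ.real O ≤ μ.real E + η / 2 := by
    have := ENNReal.toReal_mono (by finiteness) hμ.le
    rwa [ENNReal.toReal_add (measure_ne_top _ _) ENNReal.ofReal_ne_top,
      ENNReal.toReal_ofReal (by positivity)] at this
  obtain ⟨B, hB, hEB⟩ := compact_open_separated_add_right hE.isCompact hO hEO
  obtain ⟨M, hM⟩ := cover φ hφ B hB
  obtain ⟨L, hL⟩ := exists_nat_gt (2 * M / η)
  have hL0 : (0 : ℝ) < L := lt_of_le_of_lt (by positivity) hL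
  refine ⟨L, by exact_mod_cast hL0, fun z => ?_⟩
  obtain ⟨hi, hI⟩ := integral_count μ (fun n => (fun κ => φ n + κ) ⁻¹' O)
    (fun n => (hO.preimage (by fun_prop)).measurableSet) L
  have hb : ∀ κ : K, ∑ n ∈ Finset.range L, E.indicator (fun _ => (1 : ℝ)) (z + φ n) - M
      ≤ ∑ n ∈ Finset.range L, ((fun κ => φ n + κ) ⁻¹' O).indicator (fun _ => (1 : ℝ)) κ := by
    intro κ
    obtain ⟨h, hh, hκ⟩ := hM (κ - z)
    have s1 := shift_le (fun n => E.indicator (fun _ => (1 : ℝ)) (z + φ n))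
      (fun n => indicator_nonneg (fun _ _ => zero_le_one) _)
      (fun n => indicator_le_self' (fun _ _ => zero_le_one) _) h L
    have s2 : ∑ n ∈ Finset.range L, E.indicator (fun _ => (1 : ℝ)) (z + φ (h + n))
        ≤ ∑ n ∈ Finset.range L, ((fun κ => φ n + κ) ⁻¹' O).indicator (fun _ => (1 : ℝ)) κ := by
      refine Finset.sum_le_sum fun n _ => ?_
      by_cases hz : z + φ (h + n) ∈ E
      · have : κ ∈ (fun κ => φ n + κ) ⁻¹' O := by
          apply hEB
          refine ⟨_, hz, _, hκ, ?_⟩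
          simp only [map_add]
          abel
        rw [indicator_of_mem hz, indicator_of_mem this]
      · rw [indicator_of_notMem hz]
        exact indicator_nonneg (fun _ _ => zero_le_one) _
    have s3 : (h : ℝ) ≤ M := by exact_mod_cast hh
    linarith
  have h1 := integral_mono (integrable_const _) hi hb
  rw [hI] at h1
  simp only [integral_const, probReal_univ, smul_eq_mul, one_mul] at h1
  have h2 : ∑ n ∈ Finset.range L, μ.real ((fun κ => φ n + κ) ⁻¹' O) = L * μ.real O := by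
    rw [Finset.sum_congr rfl (g := fun _ => μ.real O)]
    · simp
    · intro n _
      simp only [Measure.real]
      rw [measure_preimage_add]
  rw [h2] at h1
  rw [div_lt_iff₀ hη] at hL
  nlinarith

theorem exists_large_aux (φ : ℕ →+ K) (hφ : DenseRange φ) : ∃ Lg : Set K → Prop,
    (∀ E, Lg E → E.Nonempty) ∧ (∀ E E', E ⊆ E' → Lg E → Lg E') ∧
    (∀ E κ, Lg E → Lg {z | z - κ ∈ E}) ∧
    (∀ (A : Set ℕ) (δ : ℝ), 0 < δ →
      (∀ L : ℕ, ∃ m : ℕ, δ * L ≤ (({n : ℕ | n < L ∧ m + n ∈ A}.ncard : ℕ) : ℝ)) →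
      Lg (closure (φ '' A))) ∧
    (∀ E E', IsClosed E → IsClosed E' → IsOpen {κ | Lg (E ∩ {z | z - κ ∈ E'})}) ∧
    (∀ E E', IsClosed E → IsClosed E' → Lg E → Lg E' → ∃ κ, Lg (E ∩ {z | z - κ ∈ E'})) := by
  classical
  borelize K
  let μ : Measure K := Measure.addHaarMeasure ⊤
  have : IsProbabilityMeasure μ := ⟨by
    have := Measure.addHaarMeasure_self (K₀ := (⊤ : TopologicalSpace.PositiveCompacts K))
    simpa using this⟩
  have htr : ∀ (E : Set K) (κ : K), μ {z | z - κ ∈ E} = μ E := by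
    intro E κ
    have : {z | z - κ ∈ E} = (fun z => -κ + z) ⁻¹' E := by
      ext z
      simp [sub_eq_neg_add]
    rw [this, measure_preimage_add]
  refine ⟨fun E => 0 < μ E, fun E hE => nonempty_of_measure_ne_zero hE.ne',
    fun E E' h hE => hE.trans_le (measure_mono h), fun E κ hE => lt_of_lt_of_eq hE (htr E κ).symm, ?_, ?_, ?_⟩
  · intro A δ hδ hA
    by_contra hn
    have h0 : μ (closure (φ '' A)) = 0 := by simpa using hn
    obtain ⟨L, hL, hk⟩ := key μ φ hφ _ (isClosed_closure (s := φ '' A)) (δ / 2) (by positivity)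
    obtain ⟨m, hm⟩ := hA L
    have h1 := hk (φ m)
    have h2 : (({n : ℕ | n < L ∧ m + n ∈ A}.ncard : ℕ) : ℝ)
        ≤ ∑ n ∈ Finset.range L, (closure (φ '' A)).indicator (fun _ => (1 : ℝ)) (φ m + φ n) := by
      have e : {n : ℕ | n < L ∧ m + n ∈ A}
          = ((Finset.range L).filter (fun n => m + n ∈ A) : Finset ℕ) := by
        ext n
        simp
      rw [e, ncard_coe_finset, Finset.card_filter]
      push_cast
      refine Finset.sum_le_sum fun n _ => ?_
      split_ifs with hn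
      · have : φ m + φ n ∈ closure (φ '' A) := subset_closure ⟨m + n, hn, map_add _ _ _⟩
        rw [indicator_of_mem this]
      · exact indicator_nonneg (fun _ _ => zero_le_one) _
    have h3 : μ.real (closure (φ '' A)) = 0 := by simp [Measure.real, h0]
    rw [h3] at h1
    have hL' : (0 : ℝ) < L := by exact_mod_cast hL
    nlinarith
  · intro E E' hE hE'
    rw [isOpen_iff_eventually]
    intro κ₀ h₀
    have hk : IsClosed {z | z - κ₀ ∈ E'} := hE'.preimage (by fun_prop)
    have hev := eventually_nhds_zero_measure_vadd_sdiff_lt (μ := μ) hk.isCompact hk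
      (ε := μ (E ∩ {z | z - κ₀ ∈ E'})) (ne_of_gt h₀)
    have hc : Tendsto (fun κ : K => κ₀ - κ) (𝓝 κ₀) (𝓝 0) := by
      have : Continuous (fun κ : K => κ₀ - κ) := by fun_prop
      simpa using this.tendsto κ₀
    filter_upwards [hc.eventually hev] with κ hκ
    show 0 < μ (E ∩ {z | z - κ ∈ E'})
    by_contra hn
    have h0 : μ (E ∩ {z | z - κ ∈ E'}) = 0 := by simpa using hn
    have hs : E ∩ {z | z - κ₀ ∈ E'} ⊆ (E ∩ {z | z - κ ∈ E'}) ∪
        {z | z - (κ - κ₀) ∈ ((κ₀ - κ) +ᵥ {z | z - κ₀ ∈ E'}) \ {z | z - κ₀ ∈ E'}} := by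
      rintro z ⟨hz, hz'⟩
      by_cases h : z - κ ∈ E'
      · exact Or.inl ⟨hz, h⟩
      · refine Or.inr ⟨⟨z, hz', ?_⟩, ?_⟩
        · simp only [vadd_eq_add]
          abel
        · show ¬ (z - (κ - κ₀) - κ₀ ∈ E')
          have : z - (κ - κ₀) - κ₀ = z - κ := by abel
          rwa [this]
    have h1 := (measure_mono (μ := μ) hs).trans (measure_union_le _ _)
    rw [h0, zero_add, htr] at h1
    exact absurd hκ (not_lt.mpr h1)
  · intro E E' hE hE' h h'
    by_contra hn
    have h0 : ∀ κ, μ (E ∩ {z | z - κ ∈ E'}) = 0 := by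
      intro κ
      by_contra hh
      exact hn ⟨κ, pos_iff_ne_zero.mpr hh⟩
    have ha : 0 < μ.real E := ENNReal.toReal_pos (ne_of_gt h) (measure_ne_top _ _)
    have hb : 0 < μ.real E' := ENNReal.toReal_pos (ne_of_gt h') (measure_ne_top _ _)
    obtain ⟨L, hL, hk⟩ := key μ φ hφ E' hE' (μ.real E * μ.real E' / 2) (by positivity)
    have hm : ∀ n : ℕ, MeasurableSet {z | z - (-φ n) ∈ E'} :=
      fun n => (hE'.preimage (by fun_prop)).measurableSet
    obtain ⟨hi, hI⟩ := integral_count μ (fun n => {z | z - (-φ n) ∈ E'} \ E)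
      (fun n => (hm n).diff hE.measurableSet) L
    have hb' : ∀ z : K, ∑ n ∈ Finset.range L,
        ({z | z - (-φ n) ∈ E'} \ E).indicator (fun _ => (1 : ℝ)) z
        ≤ (Eᶜ).indicator (fun _ => (μ.real E' + μ.real E * μ.real E' / 2) * L) z := by
      intro z
      by_cases hz : z ∈ E
      · rw [indicator_of_notMem (by simpa using hz)]
        refine (Finset.sum_eq_zero fun n _ => ?_).le
        exact indicator_of_notMem (fun hh => hh.2 hz) _
      · rw [indicator_of_mem (by simpa using hz)]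
        refine le_trans (Finset.sum_le_sum fun n _ => ?_) (hk z)
        by_cases hz' : z + φ n ∈ E'
        · rw [indicator_of_mem hz']
          exact indicator_le_self' (fun _ _ => zero_le_one) _
        · rw [indicator_of_notMem hz', indicator_of_notMem]
          intro hh
          exact hz' (by simpa using hh.1)
    have h1 := integral_mono hi ((integrable_const _).indicator hE.measurableSet.compl) hb'
    rw [hI, integral_indicator_const _ hE.measurableSet.compl,
      probReal_compl_eq_one_sub hE.measurableSet] at h1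
    have h2 : ∑ n ∈ Finset.range L, μ.real ({z | z - (-φ n) ∈ E'} \ E) = L * μ.real E' := by
      rw [Finset.sum_congr rfl (g := fun _ => μ.real E')]
      · simp
      · intro n _
        have e := measure_inter_add_sdiff (μ := μ) {z | z - (-φ n) ∈ E'} hE.measurableSet
        rw [inter_comm, h0, zero_add, htr] at e
        simp only [Measure.real, e]
    rw [h2, smul_eq_mul] at h1
    have hL' : (0 : ℝ) < L := by exact_mod_cast hL
    have h3 : 0 < μ.real E * μ.real E' * L := by positivity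
    have h4 : 0 < μ.real E * (μ.real E * μ.real E' * L) := by positivity
    nlinarith

end Pool.Agent.H591Z.Haar

namespace Pool.Agent.H591Z.Haar

theorem exists_large {K : Type} [AddCommGroup K] [TopologicalSpace K] [IsTopologicalAddGroup K]
    [CompactSpace K] [T2Space K] (φ : ℕ →+ K) (hφ : DenseRange φ) : ∃ Lg : Set K → Prop,
    (∀ E, Lg E → E.Nonempty) ∧ (∀ E E', E ⊆ E' → Lg E → Lg E') ∧
    (∀ E κ, Lg E → Lg {z | z - κ ∈ E}) ∧
    (∀ (A : Set ℕ) (δ : ℝ), 0 < δ →
      (∀ L : ℕ, ∃ m : ℕ, δ * L ≤ (({n : ℕ | n < L ∧ m + n ∈ A}.ncard : ℕ) : ℝ)) →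
      Lg (closure (φ '' A))) ∧
    (∀ E E', IsClosed E → IsClosed E' → IsOpen {κ | Lg (E ∩ {z | z - κ ∈ E'})}) ∧
    (∀ E E', IsClosed E → IsClosed E' → Lg E → Lg E' → ∃ κ, Lg (E ∩ {z | z - κ ∈ E'})) :=
  exists_large_aux φ hφ

end Pool.Agent.H591Z.Haar
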